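import Pool.Agent.TH6.UT.Final

/-!
# A quasi-simple group of Lie type with a block whose decomposition matrix is not unitriangular

For `q = 2^n` with `n ≥ 3`, the group `G = SL_2(q)` is a finite simple group of Lie type, and the
decomposition matrix of its principal `2`-block is not unitriangular. The smallest example is the
simple group `SL_2(8)` of order `504` (which is also the derived subgroup of the Ree group
`²G_2(3)`), with `l = 2`.

The idea: in a unitriangular ordering, let `i` be the first index for which `φ_i` is not the trivial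
Brauer character. Then `χ_i = a + φ_i` on `2`-regular elements, for an integer `a ≥ 0`. But the sum
of `|a + φ|^2` over the `2`-regular elements of `G` exceeds `|G|` for all nontrivial irreducible
Brauer characters `φ` and all `a ≥ 0`, except when `φ` is the Steinberg character and `a = 0`; in
that case `χ_i` vanishes on involutions and so does not lie in the principal block.

The definitions (Brauer characters, blocks, decomposition matrices) are in
`Pool.Agent.TH6.UT.Defs`.
-/

open scoped MatrixGroups Classical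

namespace Pool.Agent.Results.MP_5c3aa2_al.NotUnitriangular

open Pool.Agent.TH6.UT

/-- Valuation subrings `O` of `ℂ` whose maximal ideal contains `2` exist. -/
theorem exists_place : ∃ O : ValuationSubring ℂ, ((2 : ℕ) : ℂ) ∈ O.nonunits := by
  let A : Subring ℂ := (Int.castRingHom ℂ).range
  have hpA : ((2 : ℕ) : ℂ) ∈ A := ⟨(2 : ℤ), by simp⟩
  let I : Ideal A := Ideal.span {⟨((2 : ℕ) : ℂ), hpA⟩}
  have hI : I ≠ ⊤ := by
    intro h
    have h1 : (1 : A) ∈ I := by rw [h]; trivial
    obtain ⟨⟨_, n, rfl⟩, hn⟩ := Ideal.mem_span_singleton'.mp h1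
    have h2 := congrArg Subtype.val hn
    have h3 : (n : ℂ) * ((2 : ℕ) : ℂ) = 1 := h2
    have h4 : n * 2 = 1 := by exact_mod_cast h3
    omega
  obtain ⟨B, -, hB⟩ := I.image_subset_nonunits_valuationSubring hI
  exact ⟨B, hB ⟨_, Ideal.subset_span rfl, rfl⟩⟩

/-- **The decomposition matrix of the principal `2`-block of the simple group `SL_2(2^n)` is not
unitriangular for `n ≥ 3`.** Here `O` is any valuation subring of `ℂ` whose maximal ideal contains
`2` (such `O` exist), and `(ℂ, O, Res O)` is the `2`-modular system. -/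
theorem result :
    (∃ O : ValuationSubring ℂ, ((2 : ℕ) : ℂ) ∈ O.nonunits) ∧
    ∀ (n : ℕ), 3 ≤ n → ∀ (F : Type) [Field F] [Fintype F], Fintype.card F = 2 ^ n →
      commutator SL(2, F) = ⊤ ∧ Subgroup.center SL(2, F) = ⊥ ∧ IsSimpleGroup SL(2, F) ∧
      ∀ O : ValuationSubring ℂ, ((2 : ℕ) : ℂ) ∈ O.nonunits →
        ∃ B : Block O SL(2, F), IsPrincipal B ∧ ¬ Unitriangular 2 B := by
  refine ⟨exists_place, fun n hn F _ _ hF => ?_⟩
  have : Fact (Nat.Prime 2) := ⟨Nat.prime_two⟩
  have hch : CharP F 2 := charP_of_card_eq_prime_pow hF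
  have h8 : 8 ≤ Fintype.card F := by
    rw [hF]
    calc 8 = 2 ^ 3 := by norm_num
      _ ≤ 2 ^ n := Nat.pow_le_pow_right (by norm_num) hn
  obtain ⟨a, ha0, ha1⟩ : ∃ a : F, a ≠ 0 ∧ a ≠ 1 := by
    by_contra hcon
    push Not at hcon
    have h1 : (Finset.univ : Finset F) ⊆ {0, 1} := by
      intro x _
      by_cases hx : x = 0
      · simp [hx]
      · simp [hcon x hx]
    have h2 := Finset.card_le_card h1
    have h3 := Finset.card_le_two (a := (0 : F)) (b := 1)
    rw [Finset.card_univ] at h2
    omega
  have hsq : ∀ x : F, x ^ 2 = 1 → x = 1 := by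
    intro x hx
    have h2F : (2 : F) = 0 := CharTwo.two_eq_zero
    have h5 : (x - 1) ^ 2 = 0 := by linear_combination hx + (1 - x) * h2F
    exact sub_eq_zero.1 (pow_eq_zero_iff (two_ne_zero) |>.1 h5)
  have hcenter : Subgroup.center SL(2, F) = ⊥ := by
    rw [eq_bot_iff]
    intro A hA
    obtain ⟨r, hr, hrA⟩ := Matrix.SpecialLinearGroup.mem_center_iff.1 hA
    rw [Fintype.card_fin] at hr
    rw [hsq r hr] at hrA
    rw [Subgroup.mem_bot]
    apply Subtype.ext
    rw [← hrA]
    simp
  have hsimple : IsSimpleGroup SL(2, F) := by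
    have h1 : IsSimpleGroup (SL(2, F) ⧸ Subgroup.center SL(2, F)) :=
      Matrix.ProjectiveSpecialLinearGroup.rank_two_simple (by rw [Nat.card_eq_fintype_card]; omega)
    exact ((QuotientGroup.quotientMulEquivOfEq hcenter).trans
      QuotientGroup.quotientBot).symm.isSimpleGroup
  refine ⟨Matrix.SL2.commutator_eq_top ha0 (fun h => ha1 (hsq a h)), hcenter, hsimple, ?_⟩
  intro O hO
  exact ⟨B0 O _, B0_principal, not_unitri hO hn hF⟩

end Pool.Agent.Results.MP_5c3aa2_al.NotUnitriangular
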